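import Mathlib
import Pool.Agent.H874R3.MQ.Stmts

set_option autoImplicit false

/-!
# Task ITER of project H874-MQ (helper811)
-/

open Real Set MeasureTheory
open scoped ContDiff

namespace Pool.Agent.H811R3.MQ

open Pool.Agent.H874R3.MQ

theorem taskIter : TaskIter := by
  intro c S hc hS hdel
  obtain ⟨W, hW0, hWs⟩ : ∃ W : ℕ → ℝ → ℝ, W 0 = (fun _ => 0) ∧ ∀ n, W (n + 1) = S (W n) :=
    ⟨fun n => Nat.rec (fun _ => 0) (fun _ w => S w) n, rfl, fun n => rfl⟩
  have hX : ∀ n, XX c (W n) := by
    intro n
    induction n with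
    | zero => rw [hW0]; exact ⟨contDiffOn_const, fun _ _ => rfl⟩
    | succ n ih => rw [hWs]; exact hS _ ih
  -- eventually constant
  have hev : ∀ d < 1, ∃ N, ∀ n, N ≤ n → ∀ s < d, W n s = W N s := by
    intro d hd
    obtain ⟨δ, hδ, h⟩ := hdel d hd
    have hstep : ∀ n : ℕ, ∀ s, s < d → s < c + n * δ → W (n + 1) s = W n s := by
      intro n
      induction n with
      | zero =>
        intro s _ hs
        rw [Nat.cast_zero, zero_mul, add_zero] at hs
        rw [(hX 1).2 s hs.le, (hX 0).2 s hs.le]
      | succ n ih =>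
        intro s hsd hs
        rw [hWs (n + 1), hWs n]
        rw [← hWs n]
        have h1 := h (W (n + 1)) (W n) (min d (c + n * δ)) (hX _) (hX _)
          (fun s hs => ih s (lt_of_lt_of_le hs (min_le_left _ _)) (lt_of_lt_of_le hs (min_le_right _ _)))
          s hsd (by
            rw [← min_add_add_right]
            apply lt_min
            · linarith
            · push_cast at hs
              linarith)
        rw [h1, hWs n]
    obtain ⟨N, hN⟩ := exists_nat_ge ((d - c) / δ)
    refine ⟨N, fun n hn => ?_⟩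
    induction n, hn using Nat.le_induction with
    | base => intro s _; rfl
    | succ n hn ih =>
      intro s hs
      rw [← ih s hs]
      apply hstep n s hs
      have h1 : (N : ℝ) ≤ n := by exact_mod_cast hn
      have h2 : (d - c) / δ ≤ n := hN.trans h1
      rw [div_le_iff₀ hδ] at h2
      linarith
  choose! N hN using hev
  obtain ⟨w, hw⟩ : ∃ w : ℝ → ℝ, w = fun s => W (N ((s + 1) / 2)) s := ⟨_, rfl⟩
  have hwW : ∀ d < 1, ∀ n, N d ≤ n → ∀ s < d, w s = W n s := by
    intro d hd n hn s hs
    have hs1 : s < 1 := hs.trans hd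
    rw [hw]
    simp only
    have h1 := hN ((s + 1) / 2) (by linarith) (max n (N ((s + 1) / 2))) (le_max_right _ _) s (by linarith)
    have h2 := hN d hd (max n (N ((s + 1) / 2))) (hn.trans (le_max_left _ _)) s hs
    have h3 := hN d hd n hn s hs
    rw [← h1, h2, h3]
  have hXw : XX c w := by
    constructor
    · intro s hs
      rw [mem_Iio] at hs
      have hd : (s + 1) / 2 < 1 := by linarith
      have hsd : s < (s + 1) / 2 := by linarith
      have h1 : ContDiffAt ℝ ∞ (W (N ((s + 1) / 2))) s :=
        (hX _).1.contDiffAt (Iio_mem_nhds hs)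
      have h2 : w =ᶠ[nhds s] W (N ((s + 1) / 2)) := by
        filter_upwards [Iio_mem_nhds hsd] with t ht
        exact hwW _ hd _ le_rfl t ht
      exact (h1.congr_of_eventuallyEq h2).contDiffWithinAt
    · intro s hs
      have hd : (s + 1) / 2 < 1 := by linarith
      rw [hwW _ hd _ le_rfl s (by linarith)]
      exact (hX _).2 s hs
  refine ⟨w, hXw, ?_⟩
  intro s hs
  have hd : (s + 1) / 2 < 1 := by linarith
  have hsd : s < (s + 1) / 2 := by linarith
  obtain ⟨δ, hδ, h⟩ := hdel _ hd
  have h1 := h w (W (N ((s + 1) / 2))) ((s + 1) / 2) hXw (hX _)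
    (fun t ht => hwW _ hd _ le_rfl t ht) s hsd (by linarith)
  rw [h1, ← hWs]
  exact (hwW _ hd _ (Nat.le_succ _) s hsd).symm

end Pool.Agent.H811R3.MQ
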